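import Mathlib
import Pool.Agent.H.MP_3dabd4_an.A

set_option autoImplicit false

namespace Pool.Agent.Results.MP_3dabd4_an.Yes
open Polynomial

theorem result (P : ℂ[X]) (c : ℂ) (hP : 0 < P.natDegree)
    (hs : ∀ z, P.IsRoot z → P.rootMultiplicity z = 1)
    (hZ : ∀ z, (C (c ^ 2) * P + C (2 * c) * P.derivative + P.derivative.derivative).IsRoot z →
      P.IsRoot z ∨ (C c * P + P.derivative).IsRoot z) : c = 0 := by
  have P0 : P ≠ 0 := fun h => by simp [h] at hP
  refine H.MP_3dabd4_an.main P c hP (fun z hz h => ?_) fun z hz => hZ z ?_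
  · have := (one_lt_rootMultiplicity_iff_isRoot P0).2 ⟨hz, h⟩
    rw [hs z hz] at this
    exact lt_irrefl _ this
  · rw [IsRoot, ← hz]
    simp
    ring

end Pool.Agent.Results.MP_3dabd4_an.Yes
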